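import Pool.Agent.helper52.WP.SpecB
import Pool.Agent.helper31.GR.KER

/-!
# Project wp: (MP_af9036_an), module INQ: the integral of the first part of the error
-/

set_option autoImplicit false

open Complex Metric Set Filter Topology MeasureTheory
open V3S (UF)
open WP
open PPS (pre TT fd)
open XPS (Df er)

noncomputable section

namespace WPB

theorem INQ_mono {t ε : ℝ} (ht : 0 < t) (hte : t ≤ ε) (hε : ε ≤ 1 / 4) :
    t * (1 + Real.log (4 / t)) ≤ 3 * ε * (1 + Real.log (1 / ε)) := by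
  have hε0 : 0 < ε := ht.trans_le hte
  have h1 : Real.log (4 / t) = Real.log 4 + Real.log (1 / ε) + Real.log (ε / t) := by
    rw [← Real.log_mul (by norm_num) (by positivity), ← Real.log_mul (by positivity) (by positivity)]
    congr 1
    field_simp
  have h2 : Real.log (ε / t) ≤ ε / t - 1 := Real.log_le_sub_one_of_pos (by positivity)
  have h3 : Real.log 4 ≤ 2 := by
    have h4 : Real.log 2 ≤ 2 - 1 := Real.log_le_sub_one_of_pos (by norm_num)
    have h5 : Real.log 4 = Real.log 2 + Real.log 2 := by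
      rw [← Real.log_mul (by norm_num) (by norm_num)]
      norm_num
    linarith
  have h4 : 0 ≤ Real.log 4 := Real.log_nonneg (by norm_num)
  have h5 : 0 ≤ Real.log (1 / ε) := by
    apply Real.log_nonneg
    rw [le_div_iff₀ hε0]
    linarith
  have h6 : t * Real.log (ε / t) ≤ ε - t := by
    have h7 := mul_le_mul_of_nonneg_left h2 ht.le
    have h8 : t * (ε / t - 1) = ε - t := by
      field_simp
    linarith
  have h7 : t * (Real.log 4 + Real.log (1 / ε)) ≤ ε * (2 + Real.log (1 / ε)) :=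
    mul_le_mul hte (by linarith) (by linarith) hε0.le
  rw [h1]
  nlinarith [mul_nonneg hε0.le h5]

/-- the kernel attached to two points -/
def INQ_k (a b x : ℂ) : ℝ := ‖(4 : ℂ) - (b - a)‖ / (‖x - a‖ * ‖x - a - (b - a)‖ * ‖x - a - 4‖)

theorem INQ_kmeas (a b : ℂ) : Measurable (INQ_k a b) := by
  unfold INQ_k
  fun_prop

theorem INQ_kint {C : ℝ} (hC : ∀ a b : ℂ, a ≠ 0 → 2 * ‖a‖ ≤ ‖b‖ →
    ∫⁻ z : ℂ, ENNReal.ofReal (‖b - a‖ / (‖z‖ * ‖z - a‖ * ‖z - b‖)) ≤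
      ENNReal.ofReal (C * (1 + Real.log (‖b‖ / ‖a‖)))) {ε : ℝ} (a b : ℂ)
    (hC0 : 0 < C) (hab : ‖b - a‖ ≤ ε) (hε : ε ≤ 1 / 4) (hε0 : 0 < ε) :
    ∫⁻ x : ℂ, ENNReal.ofReal (2 * ‖b - a‖) * ENNReal.ofReal (INQ_k a b x) ≤
      ENNReal.ofReal (6 * C * ε * (1 + Real.log (1 / ε))) := by
  rw [lintegral_const_mul _ (INQ_kmeas a b).ennreal_ofReal]
  by_cases h0 : b - a = 0
  · rw [h0, norm_zero, mul_zero, ENNReal.ofReal_zero, zero_mul]
    exact bot_le
  have ht : 0 < ‖b - a‖ := norm_pos_iff.2 h0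
  have h4 : ‖(4 : ℂ)‖ = 4 := by norm_num
  have h1 := hC (b - a) 4 h0 (by rw [h4]; linarith)
  have h2 : ∫⁻ x : ℂ, ENNReal.ofReal (INQ_k a b x) =
      ∫⁻ z : ℂ, ENNReal.ofReal (‖(4 : ℂ) - (b - a)‖ / (‖z‖ * ‖z - (b - a)‖ * ‖z - 4‖)) :=
    lintegral_sub_right_eq_self (fun z : ℂ => ENNReal.ofReal (‖(4 : ℂ) - (b - a)‖ /
      (‖z‖ * ‖z - (b - a)‖ * ‖z - 4‖))) a
  rw [h2]
  refine (mul_le_mul_right h1 _).trans ?_
  rw [← ENNReal.ofReal_mul (by positivity), h4]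
  apply ENNReal.ofReal_le_ofReal
  have h3 := INQ_mono ht hab hε
  calc 2 * ‖b - a‖ * (C * (1 + Real.log (4 / ‖b - a‖)))
      = 2 * C * (‖b - a‖ * (1 + Real.log (4 / ‖b - a‖))) := by ring
    _ ≤ 2 * C * (3 * ε * (1 + Real.log (1 / ε))) := mul_le_mul_of_nonneg_left h3 (by positivity)
    _ = 6 * C * ε * (1 + Real.log (1 / ε)) := by ring

/-- near part, one term -/
theorem INQ_near {ε : ℝ} {a b β x : ℂ} (ha : ‖a‖ ≤ 1 / 4) (hab : ‖b - a‖ ≤ ε) (hβ : ‖β - 1‖ ≤ ε)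
    (hε : ε ≤ 1 / 4) (hx : ‖x‖ < 1) (hxa : x ≠ a) (hxb : x ≠ b) :
    ‖1 / (x - a) - β / (x - b)‖ ≤ ε * (1 / ‖x - b‖) + 2 * ‖b - a‖ * INQ_k a b x := by
  have h1 : x - a ≠ 0 := sub_ne_zero.2 hxa
  have h2 : x - b ≠ 0 := sub_ne_zero.2 hxb
  have p1 : 0 < ‖x - a‖ := norm_pos_iff.2 h1
  have p2 : 0 < ‖x - b‖ := norm_pos_iff.2 h2
  have e1 : 1 / (x - a) - β / (x - b) = (1 - β) / (x - b) + (a - b) / ((x - a) * (x - b)) := by
    field_simp
    ring
  rw [e1]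
  refine (norm_add_le _ _).trans (add_le_add ?_ ?_)
  · rw [norm_div, ← mul_one_div]
    apply mul_le_mul_of_nonneg_right _ (by positivity)
    rw [norm_sub_rev]
    exact hβ
  · rw [norm_div, norm_mul, norm_sub_rev a b]
    unfold INQ_k
    have e2 : x - a - (b - a) = x - b := by ring
    rw [e2]
    have h3 : 3 ≤ ‖(4 : ℂ) - (b - a)‖ := by
      have := norm_sub_norm_le (4 : ℂ) (b - a)
      have h4 : ‖(4 : ℂ)‖ = 4 := by norm_num
      linarith
    have h5 : ‖x - a - 4‖ ≤ 6 := by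
      have h6 := norm_sub_le (x - a) 4
      have h7 := norm_sub_le x a
      have h4 : ‖(4 : ℂ)‖ = 4 := by norm_num
      linarith
    have h6 : 0 < ‖x - a - 4‖ := by
      have h7 : ‖(4 : ℂ)‖ = 4 := by norm_num
      have h8 := norm_sub_norm_le (4 : ℂ) (x - a)
      have h9 := norm_sub_le x a
      rw [norm_sub_rev (4 : ℂ) (x - a)] at h8
      linarith
    have h7 : 1 / 2 ≤ ‖(4 : ℂ) - (b - a)‖ / ‖x - a - 4‖ := by
      rw [le_div_iff₀ h6]
      linarith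
    have e3 : 2 * ‖b - a‖ * (‖(4 : ℂ) - (b - a)‖ / (‖x - a‖ * ‖x - b‖ * ‖x - a - 4‖)) =
        ‖b - a‖ / (‖x - a‖ * ‖x - b‖) * (2 * (‖(4 : ℂ) - (b - a)‖ / ‖x - a - 4‖)) := by
      field_simp
    rw [e3]
    have h8 : 0 ≤ ‖b - a‖ / (‖x - a‖ * ‖x - b‖) := by positivity
    calc ‖b - a‖ / (‖x - a‖ * ‖x - b‖) = ‖b - a‖ / (‖x - a‖ * ‖x - b‖) * 1 := (mul_one _).symm
      _ ≤ _ := mul_le_mul_of_nonneg_left (by linarith) h8

/-- far part, one term -/
theorem INQ_far {ε : ℝ} {a b β x : ℂ} (ha : ‖a‖ ≤ 1 / 4) (hab : ‖b - a‖ ≤ ε) (hβ : ‖β - 1‖ ≤ ε)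
    (hε : ε ≤ 1 / 4) (hx : 1 ≤ ‖x‖) :
    ‖1 / (x - a) - β / (x - b) - ((1 - β) / x + (a - β * b) / x ^ 2)‖ ≤ 3 * ε * (1 / ‖x‖ ^ 3) := by
  have hε0 : 0 ≤ ε := (norm_nonneg _).trans hab
  have hb : ‖b‖ ≤ 1 / 2 := by
    have h1 := norm_add_le (b - a) a
    rw [sub_add_cancel] at h1
    linarith
  have hxa : 3 / 4 * ‖x‖ ≤ ‖x - a‖ := by
    have := norm_sub_norm_le x a
    linarith
  have hxb : 1 / 2 * ‖x‖ ≤ ‖x - b‖ := by
    have := norm_sub_norm_le x b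
    linarith
  have px : 0 < ‖x‖ := by linarith
  have pa : 0 < ‖x - a‖ := by linarith
  have pb : 0 < ‖x - b‖ := by linarith
  have h0 : x ≠ 0 := norm_pos_iff.1 px
  have h1 : x - a ≠ 0 := norm_pos_iff.1 pa
  have h2 : x - b ≠ 0 := norm_pos_iff.1 pb
  have e1 : 1 / (x - a) - β / (x - b) - ((1 - β) / x + (a - β * b) / x ^ 2) =
      1 / x ^ 2 * ((a - b) * ((a + b) * x - a * b) / ((x - a) * (x - b)) +
        (1 - β) * b ^ 2 / (x - b)) := by
    field_simp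
    ring
  rw [e1, norm_mul, norm_div, norm_one, norm_pow]
  have h3 : ‖(a - b) * ((a + b) * x - a * b) / ((x - a) * (x - b))‖ ≤ 7 / 3 * ε / ‖x‖ := by
    rw [norm_div, norm_mul, norm_mul, div_le_div_iff₀ (mul_pos pa pb) px]
    have h4 : ‖(a + b) * x - a * b‖ ≤ 7 / 8 * ‖x‖ := by
      have h5 := norm_sub_le ((a + b) * x) (a * b)
      rw [norm_mul, norm_mul] at h5
      have h6 := norm_add_le a b
      have h7 : ‖a + b‖ * ‖x‖ ≤ 3 / 4 * ‖x‖ := mul_le_mul_of_nonneg_right (by linarith) px.le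
      have h8 : ‖a‖ * ‖b‖ ≤ 1 / 4 * (1 / 2) :=
        mul_le_mul ha hb (norm_nonneg _) (by norm_num)
      linarith
    have h5 : ‖a - b‖ ≤ ε := by rw [norm_sub_rev]; exact hab
    have h6 : 3 / 4 * ‖x‖ * (1 / 2 * ‖x‖) ≤ ‖x - a‖ * ‖x - b‖ :=
      mul_le_mul hxa hxb (by positivity) pa.le
    calc ‖a - b‖ * ‖(a + b) * x - a * b‖ * ‖x‖ ≤ ε * (7 / 8 * ‖x‖) * ‖x‖ :=
          mul_le_mul_of_nonneg_right (mul_le_mul h5 h4 (norm_nonneg _) hε0) px.le
      _ = 7 / 3 * ε * (3 / 4 * ‖x‖ * (1 / 2 * ‖x‖)) := by ring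
      _ ≤ 7 / 3 * ε * (‖x - a‖ * ‖x - b‖) := mul_le_mul_of_nonneg_left h6 (by positivity)
  have h4 : ‖(1 - β) * b ^ 2 / (x - b)‖ ≤ 1 / 2 * ε / ‖x‖ := by
    rw [norm_div, norm_mul, norm_pow, div_le_div_iff₀ pb px]
    have h5 : ‖1 - β‖ ≤ ε := by rw [norm_sub_rev]; exact hβ
    have h6 : ‖b‖ ^ 2 ≤ (1 / 2) ^ 2 := pow_le_pow_left₀ (norm_nonneg _) hb 2
    calc ‖1 - β‖ * ‖b‖ ^ 2 * ‖x‖ ≤ ε * (1 / 2) ^ 2 * ‖x‖ :=
          mul_le_mul_of_nonneg_right (mul_le_mul h5 h6 (by positivity) hε0) px.le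
      _ = 1 / 2 * ε * (1 / 2 * ‖x‖) := by ring
      _ ≤ 1 / 2 * ε * ‖x - b‖ := mul_le_mul_of_nonneg_left hxb (by positivity)
  have h5 := (norm_add_le ((a - b) * ((a + b) * x - a * b) / ((x - a) * (x - b)))
    ((1 - β) * b ^ 2 / (x - b))).trans (add_le_add h3 h4)
  have h6 : 7 / 3 * ε / ‖x‖ + 1 / 2 * ε / ‖x‖ ≤ 3 * ε / ‖x‖ := by
    rw [← add_div]
    apply div_le_div_of_nonneg_right _ px.le
    linarith
  calc 1 / ‖x‖ ^ 2 * ‖(a - b) * ((a + b) * x - a * b) / ((x - a) * (x - b)) +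
        (1 - β) * b ^ 2 / (x - b)‖ ≤ 1 / ‖x‖ ^ 2 * (3 * ε / ‖x‖) :=
        mul_le_mul_of_nonneg_left (h5.trans h6) (by positivity)
    _ = 3 * ε * (1 / ‖x‖ ^ 3) := by
      field_simp

theorem INQ : INQ_stmt := by
  obtain ⟨CK, hCK0, hCK⟩ := GR.KER
  refine ⟨48 * Real.pi + 18 * CK, by positivity, ?_⟩
  intro ε a b β γ hε0 hε hγ ha hab hβ hl1 hl2
  have hL : 0 ≤ Real.log (1 / ε) := by
    apply Real.log_nonneg
    rw [le_div_iff₀ hε0]
    linarith
  -- the functions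
  obtain ⟨g1, hg1⟩ : ∃ g1 : Fin 3 → ℂ → ENNReal, ∀ i, g1 i = (ball (b i) 2).indicator
    (fun z => ENNReal.ofReal ε * ENNReal.ofReal ((fun z => 1 / ‖z - b i‖) z)) := ⟨_, fun _ => rfl⟩
  obtain ⟨g2, hg2⟩ : ∃ g2 : Fin 3 → ℂ → ENNReal, ∀ i, g2 i = fun x =>
    ENNReal.ofReal (2 * ‖b i - a i‖) * ENNReal.ofReal (INQ_k (a i) (b i) x) := ⟨_, fun _ => rfl⟩
  obtain ⟨g3, hg3⟩ : ∃ g3 : ℂ → ENNReal, g3 = {z : ℂ | ‖z‖ ∈ Ioi (1 / 2 : ℝ)}.indicator
    (fun z => ENNReal.ofReal (9 * ε) * ENNReal.ofReal ((fun z => 1 / ‖z‖ ^ 3) z)) := ⟨_, rfl⟩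
  have m1 : ∀ i, Measurable (g1 i) := by
    intro i
    rw [hg1]
    exact (GR.KER_cov (ball (b i) 2) measurableSet_ball ε _ hε0.le (fun z => 1 / ‖z - b i‖)
      (by fun_prop) (GR.KER_v1a (b i) 2 (by norm_num))).1
  have i1 : ∀ i, ∫⁻ x, g1 i x = ENNReal.ofReal (ε * (2 * Real.pi * 2)) := by
    intro i
    rw [hg1]
    exact (GR.KER_cov (ball (b i) 2) measurableSet_ball ε _ hε0.le (fun z => 1 / ‖z - b i‖)
      (by fun_prop) (GR.KER_v1a (b i) 2 (by norm_num))).2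
  have m2 : ∀ i, Measurable (g2 i) := by
    intro i
    rw [hg2]
    exact (INQ_kmeas (a i) (b i)).ennreal_ofReal.const_mul _
  have i2 : ∀ i, ∫⁻ x, g2 i x ≤ ENNReal.ofReal (6 * CK * ε * (1 + Real.log (1 / ε))) := by
    intro i
    rw [hg2]
    exact INQ_kint hCK (a i) (b i) hCK0 (hab i) hε hε0
  obtain ⟨m3, i3⟩ := GR.KER_cov {z : ℂ | ‖z‖ ∈ Ioi (1 / 2 : ℝ)} (measurable_norm measurableSet_Ioi)
    (9 * ε) _ (by positivity) (fun z => 1 / ‖z‖ ^ 3) (by fun_prop)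
    (GR.KER_v3 (1 / 2) (by norm_num))
  rw [← hg3] at m3 i3
  -- the pointwise inequality
  have hae : ∀ᵐ x : ℂ, ∀ i, x ≠ a i ∧ x ≠ b i := by
    rw [ae_all_iff]
    intro i
    have h1 : ∀ᵐ x : ℂ, x ≠ a i := by
      rw [ae_iff]
      simp
    have h2 : ∀ᵐ x : ℂ, x ≠ b i := by
      rw [ae_iff]
      simp
    exact h1.and h2
  have hpt : ∀ᵐ x : ℂ, ENNReal.ofReal ‖∑ i, γ i * (1 / (x - a i) - β i / (x - b i))‖ ≤
      (∑ i, (g1 i x + g2 i x)) + g3 x := by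
    filter_upwards [hae] with x hx
    rcases lt_or_ge ‖x‖ 1 with h1 | h1
    · refine le_trans ?_ le_self_add
      have h2 : ∀ i, ‖γ i * (1 / (x - a i) - β i / (x - b i))‖ ≤
          ε * (1 / ‖x - b i‖) + 2 * ‖b i - a i‖ * INQ_k (a i) (b i) x := by
        intro i
        rw [norm_mul]
        calc ‖γ i‖ * ‖1 / (x - a i) - β i / (x - b i)‖
            ≤ 1 * ‖1 / (x - a i) - β i / (x - b i)‖ :=
              mul_le_mul_of_nonneg_right (hγ i) (norm_nonneg _)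
          _ = ‖1 / (x - a i) - β i / (x - b i)‖ := one_mul _
          _ ≤ _ := INQ_near (ha i) (hab i) (hβ i) hε h1 (hx i).1 (hx i).2
      have h3 : ‖∑ i, γ i * (1 / (x - a i) - β i / (x - b i))‖ ≤
          ∑ i, (ε * (1 / ‖x - b i‖) + 2 * ‖b i - a i‖ * INQ_k (a i) (b i) x) :=
        (norm_sum_le _ _).trans (Finset.sum_le_sum fun i _ => h2 i)
      refine (ENNReal.ofReal_le_ofReal h3).trans ?_
      have hk0 : ∀ i, 0 ≤ INQ_k (a i) (b i) x := fun i => by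
        unfold INQ_k
        positivity
      rw [ENNReal.ofReal_sum_of_nonneg (fun i _ => add_nonneg (by positivity)
        (mul_nonneg (by positivity) (hk0 i)))]
      apply Finset.sum_le_sum
      intro i _
      rw [ENNReal.ofReal_add (by positivity) (mul_nonneg (by positivity) (hk0 i))]
      apply add_le_add
      · rw [hg1]
        apply GR.KER_pt (ball (b i) 2) ε hε0.le (fun z => 1 / ‖z - b i‖) x _ _ (le_refl _)
        rw [mem_ball, dist_eq_norm]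
        have h4 := norm_sub_le x (b i)
        have h5 := norm_add_le (b i - a i) (a i)
        rw [sub_add_cancel] at h5
        have h6 := ha i
        have h7 := hab i
        linarith
      · rw [hg2, ENNReal.ofReal_mul (by positivity)]
    · refine le_trans ?_ le_add_self
      rw [hg3]
      apply GR.KER_pt {z : ℂ | ‖z‖ ∈ Ioi (1 / 2 : ℝ)} (9 * ε) (by positivity)
        (fun z => 1 / ‖z‖ ^ 3) x (show (1 / 2 : ℝ) < ‖x‖ by linarith)
      have e1 : ∑ i, γ i * (1 / (x - a i) - β i / (x - b i)) =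
          ∑ i, γ i * (1 / (x - a i) - β i / (x - b i) -
            ((1 - β i) / x + (a i - β i * b i) / x ^ 2)) := by
        have e2 : ∑ i, γ i * (1 / (x - a i) - β i / (x - b i) -
            ((1 - β i) / x + (a i - β i * b i) / x ^ 2)) =
            ∑ i, γ i * (1 / (x - a i) - β i / (x - b i)) -
              ((∑ i, γ i * (1 - β i)) / x + (∑ i, γ i * (a i - β i * b i)) / x ^ 2) := by
          rw [Finset.sum_div, Finset.sum_div, ← Finset.sum_add_distrib, ← Finset.sum_sub_distrib]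
          refine Finset.sum_congr rfl fun i _ => ?_
          ring
        rw [e2, hl1, hl2]
        simp
      rw [e1]
      refine (norm_sum_le _ _).trans ?_
      have h2 : ∀ i ∈ Finset.univ, ‖γ i * (1 / (x - a i) - β i / (x - b i) -
          ((1 - β i) / x + (a i - β i * b i) / x ^ 2))‖ ≤ 3 * ε * (1 / ‖x‖ ^ 3) := by
        intro i _
        rw [norm_mul]
        calc ‖γ i‖ * ‖1 / (x - a i) - β i / (x - b i) -
              ((1 - β i) / x + (a i - β i * b i) / x ^ 2)‖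
            ≤ 1 * ‖1 / (x - a i) - β i / (x - b i) -
              ((1 - β i) / x + (a i - β i * b i) / x ^ 2)‖ :=
              mul_le_mul_of_nonneg_right (hγ i) (norm_nonneg _)
          _ = _ := one_mul _
          _ ≤ _ := INQ_far (ha i) (hab i) (hβ i) hε h1
      refine (Finset.sum_le_sum h2).trans ?_
      rw [Finset.sum_const, Finset.card_univ, Fintype.card_fin, nsmul_eq_mul]
      apply le_of_eq
      push_cast
      ring
  refine (lintegral_mono_ae hpt).trans ?_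
  have hm12 : ∀ i ∈ (Finset.univ : Finset (Fin 3)), Measurable (fun x => g1 i x + g2 i x) :=
    fun i _ => (m1 i).add (m2 i)
  rw [lintegral_add_right _ m3, lintegral_finsetSum Finset.univ hm12, i3]
  have h5 : ∀ i ∈ Finset.univ, ∫⁻ x, (g1 i x + g2 i x) ≤
      ENNReal.ofReal (ε * (2 * Real.pi * 2) + 6 * CK * ε * (1 + Real.log (1 / ε))) := by
    intro i _
    rw [lintegral_add_left (m1 i), i1, ENNReal.ofReal_add (by positivity) (by positivity)]
    exact add_le_add (le_refl _) (i2 i)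
  refine (add_le_add (Finset.sum_le_sum h5) (le_refl _)).trans ?_
  rw [Finset.sum_const, Finset.card_univ, Fintype.card_fin, nsmul_eq_mul]
  rw [show (((3 : ℕ) : ENNReal)) = ENNReal.ofReal 3 by norm_num,
    ← ENNReal.ofReal_mul (by norm_num), ← ENNReal.ofReal_add (by positivity) (by positivity)]
  apply ENNReal.ofReal_le_ofReal
  have h6 : 48 * Real.pi * ε ≤ 48 * Real.pi * ε * (1 + Real.log (1 / ε)) := by
    have : 0 ≤ 48 * Real.pi * ε := by positivity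
    nlinarith
  nlinarith

end WPB
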