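import Pool.Agent.helper52.WP.SpecB
import Pool.Agent.helper24.BR.MBB

set_option autoImplicit false

open Complex Metric Set Filter Topology MeasureTheory
open V3S (UF)
open WP
open PPS (pre TT fd)
open XPS (Df er)
open Pool.Agent.helper16.Multibrot

noncomputable section

namespace WPB

theorem BDT_small (K m₀ : ℝ) (hK : 0 < K) (hm : 0 < m₀) :
    ∃ ε > (0 : ℝ), ε ≤ 1 / 64 ∧ ε ≤ m₀ ∧ K * (ε * (1 + Real.log (1 / ε))) ≤ m₀ := by
  set s : ℝ := min (1 / 8) (min m₀ (m₀ / (3 * K))) with hs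
  have hs0 : 0 < s := lt_min (by norm_num) (lt_min hm (by positivity))
  have hs1 : s ≤ 1 / 8 := min_le_left _ _
  have hs2 : s ≤ m₀ := (min_le_right _ _).trans (min_le_left _ _)
  have hs3 : s ≤ m₀ / (3 * K) := (min_le_right _ _).trans (min_le_right _ _)
  refine ⟨s ^ 2, by positivity, by nlinarith, by nlinarith, ?_⟩
  have hlog : Real.log (1 / s ^ 2) ≤ 2 * (1 / s) := by
    have h1 : Real.log (1 / s ^ 2) = 2 * Real.log (1 / s) := by
      rw [one_div, one_div, Real.log_inv, Real.log_inv, Real.log_pow]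
      push_cast
      ring
    rw [h1]
    have h2 : Real.log (1 / s) ≤ 1 / s - 1 := Real.log_le_sub_one_of_pos (by positivity)
    linarith
  have h3 : s ^ 2 * (1 + Real.log (1 / s ^ 2)) ≤ 3 * s := by
    calc s ^ 2 * (1 + Real.log (1 / s ^ 2)) ≤ s ^ 2 * (1 + 2 * (1 / s)) :=
          mul_le_mul_of_nonneg_left (by linarith) (by positivity)
      _ = s ^ 2 + 2 * s := by field_simp
      _ ≤ 3 * s := by nlinarith
  calc K * (s ^ 2 * (1 + Real.log (1 / s ^ 2))) ≤ K * (3 * s) :=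
        mul_le_mul_of_nonneg_left h3 hK.le
    _ ≤ K * (3 * (m₀ / (3 * K))) := by gcongr
    _ = m₀ := by field_simp

theorem BDT (hPRE : PRE_stmt) (hLOC : LOC_stmt) (hERD : ERD_stmt) (hEGR : EGR_stmt)
    (hHFI : HFI_stmt) (hCB1 : WPC.CB1_stmt) (hBRG : BR.BRG_stmt) : BDT_stmt := by
  intro n hn r hr C A τ hC hA hτ
  obtain ⟨CE, hCE, hE⟩ := hERD
  have hM : (0 : ℝ) < 4000 / r := by positivity
  set M : ℝ := 4000 / r with hMd
  set rad : ℝ := 4 + 4 * A with hrad
  have hrad0 : 0 < rad := by rw [hrad]; linarith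
  have hm0 : 0 < min τ (1 / (16 * C)) := lt_min hτ (by positivity)
  have hK : 0 < 3 * (CE * (1 + M * rad)) := by positivity
  obtain ⟨ε, hε, hε64, hεm, hεK⟩ := BDT_small _ _ hK hm0
  refine ⟨ε, hε, ?_⟩
  intro c hc hdis k w ρ hG
  have hc2 : ‖c‖ ≤ 2 := ((BR.MBB n c hn).1 hc).1
  obtain ⟨-, -, -, v, m, μ, -, hCR, hfe, -⟩ := hBRG n c r hn hr hc hdis
  obtain ⟨hw4, hρ4⟩ := hLOC n c C ε k w ρ hn hc2 (by linarith) hG
  obtain ⟨a, γ, hγ1, hpt, hsep, hpre⟩ := hPRE n c C ε k w ρ hn hc2 hC hε hε64 hG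
  have hlog0 : 0 ≤ Real.log (1 / ε) := by
    apply Real.log_nonneg
    rw [le_div_iff₀ hε]
    linarith
  set e : ℝ := CE * (1 + M * rad) * ε * (1 + Real.log (1 / ε)) with he
  have he0 : 0 ≤ e := by positivity
  have h3e : 3 * e ≤ min τ (1 / (16 * C)) := by
    refine le_trans (le_of_eq ?_) hεK
    rw [he]
    ring
  set om : ℝ := max ε (3 * e) with hom
  have hom0 : 0 < om := lt_max_of_lt_left hε
  have homm : om ≤ min τ (1 / (16 * C)) := max_le hεm h3e
  set D0 : Dat := ⟨k, GR.fp n c, w, ρ, a, γ, rad, 3 * e, 1, om⟩ with hD0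
  set s : ℝ := (1 + ‖D0.ca‖ + ‖D0.cb‖)⁻¹ with hs
  have hs0 : 0 < s := by positivity
  have hs1 : s ≤ 1 := by
    apply inv_le_one_of_one_le₀
    have := norm_nonneg D0.ca
    have := norm_nonneg D0.cb
    linarith
  have hP : Pre n c ε ⟨k, GR.fp n c, w, ρ, a, γ, rad, 3 * e, s, om⟩ := hpre rad (3 * e) s om
  obtain ⟨D, hD⟩ : ∃ D : Dat, D = ⟨k, GR.fp n c, w, ρ, a, γ, rad, 3 * e, s, om⟩ := ⟨_, rfl⟩
  have hDk : D.k = k := by rw [hD]
  have hDf : D.f = GR.fp n c := by rw [hD]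
  have hDw : D.w = w := by rw [hD]
  have hDρ : D.ρ = ρ := by rw [hD]
  have hDa : D.a = a := by rw [hD]
  have hDγ : D.γ = γ := by rw [hD]
  have hDrad : D.rad = rad := by rw [hD]
  have hDE : D.E = 3 * e := by rw [hD]
  have hDs : D.s = s := by rw [hD]
  have hDom : D.om = om := by rw [hD]
  have hDs' : D.s = (1 + ‖D.ca‖ + ‖D.cb‖)⁻¹ := by
    rw [hDs, hs]
    have h1 : D.ca = D0.ca := by rw [hD, hD0]; rfl
    have h2 : D.cb = D0.cb := by rw [hD, hD0]; rfl
    rw [h1, h2]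
  have hPD : Pre n c ε D := by rw [hD]; exact hP
  clear_value D0 s om e
  clear hD
  have hρ0 : 0 < D.ρ := by rw [hDρ]; exact hG.rho
  obtain ⟨hsg, hsgn, hxz, hzx, hF0, hFadd, hFd, hFch, hFder, hFit, -, -, -, -, -, -⟩ := hCB1 D hρ0
  have hdeg : D.f.natDegree = n := by
    rw [hDf, GR.fp]
    exact Polynomial.natDegree_X_pow_add_C
  obtain ⟨-, hmeas, hint, hfin, hdif⟩ := hHFI D hρ0
  have hzz : ∀ (t : ℝ) (x : ℂ), x ∈ ball (0 : ℂ) t → D.zz x ∈ ball w (ρ * t) := by
    intro t x hx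
    rw [mem_ball_zero_iff] at hx
    rw [mem_ball, dist_eq_norm, Dat.zz, hDw, add_sub_cancel_left, norm_mul, hsgn, hDρ]
    exact mul_lt_mul_of_pos_left hx hG.rho
  have hEr := hE n c ε M rad D v hPD hM.le (by rw [hrad]; linarith) hCR hfe
  have hEG := hEGR n c rad D.H0 e hn hc2 (by rw [hrad]; linarith) hmeas (hint rad) he0 (by
    rw [hDf] at hEr
    rw [he] at *
    exact hEr)
  refine ⟨D, hDf, hDk, hDw, hDρ, by rw [hDom]; exact homm.trans (min_le_left _ _), hDs', ?_⟩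
  refine
    { hn := hn
      hdeg := hdeg
      hk := by rw [hDk]; exact hG.k1
      C1 := hC
      A1 := hA
      rho := hρ0
      inj := ?_
      dj := ?_
      big := ?_
      near := ?_
      pt := by rw [hDa]; exact hpt
      sep := by rw [hDa]; exact hsep
      gam := hPD.gam
      gam1 := by rw [hDγ]; exact hγ1
      eng := ?_
      radb := ?_
      om0 := by rw [hDom]; exact hom0
      om1 := by rw [hDom]; exact homm.trans (min_le_right _ _)
      Eom := by rw [hDom, hDE, hom]; exact le_max_right _ _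
      s0 := by rw [hDs]; exact hs0
      s1 := by rw [hDs]; exact hs1 }
  · intro x hx y hy hxy
    have h1 : D.zz (D.F D.k x) = D.zz (D.F D.k y) := congrArg D.zz hxy
    rw [hFit, hFit, hDf, hDk] at h1
    have hx' := hzz 1 x hx
    have hy' := hzz 1 y hy
    rw [mul_one] at hx' hy'
    have h2 := hG.inj hx' hy' h1
    rw [← hxz x, h2, hxz y]
  · intro i hi j hj hij
    rw [hDk] at hi hj
    rw [Set.disjoint_left]
    rintro y ⟨u, hu, rfl⟩ ⟨u', hu', huu⟩
    have h1 : D.zz (D.F j u') = D.zz (D.F i u) := congrArg D.zz huu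
    rw [hFit, hFit, hDf] at h1
    have hC' : ρ * (1 / C) = ρ / C := by ring
    have hu1 := hzz _ u hu
    have hu2 := hzz _ u' hu'
    rw [hC'] at hu1 hu2
    exact Set.disjoint_left.1 (hG.dj i hi j hj hij) ⟨_, hu1, rfl⟩ ⟨_, hu2, h1⟩
  · intro j hj
    rw [hDk] at hj
    rw [hFder]
    have h0 : D.zz 0 = w := by rw [Dat.zz, mul_zero, add_zero, hDw]
    rw [h0, hDf]
    exact hG.big j hj
  · intro x hx
    refine (hPD.near x hx).trans ?_
    rw [hDom, hom]
    exact le_max_left _ _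
  · refine
      { hn := hn
        hdeg := hdeg
        ad := ⟨by rw [hdeg]; omega, hfin, hdif⟩
        posR := by rw [hDrad]; exact hrad0
        inv := ?_
        E0 := by rw [hDE]; positivity
        hE := ?_ }
    · rw [hDrad, hDf]
      exact hEG.1
    · rw [hDrad, hDE]
      have h2 := hEG.2
      rw [← hDf] at h2
      exact h2
  · intro x hx
    rw [hDrad, Dat.zz, hDw, hrad]
    have h1 : ‖w + D.sg * x‖ ≤ ‖w‖ + ‖D.sg‖ * ‖x‖ :=
      (norm_add_le _ _).trans (by rw [norm_mul])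
    rw [hsgn, hDρ] at h1
    have h2 : ρ * ‖x‖ ≤ 4 * ‖x‖ := mul_le_mul_of_nonneg_right hρ4 (norm_nonneg _)
    linarith

end WPB
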